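import Pool.Agent.H70.EH.Targets

/-!
# Replacement of independent copies, relative version (RCP)
-/

set_option autoImplicit false
set_option linter.unusedSectionVars false

namespace Pool.Agent.H47.EH

open Finset Function Pool.Agent.H70.EH

section

variable {U T : Type} [Fintype U] [DecidableEq U] [Fintype T]

/-- Resampling one coordinate. -/
lemma resample (u0 : U) (μ : T → ℝ) (hμ : ∑ p, μ p = 1) (g : (U → T) → ℝ) :
    ∑ P, g P = ∑ P : U → T, μ (P u0) * ∑ p, g (update P u0 p) := by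
  have h1 : ∑ P : U → T, μ (P u0) * ∑ p, g (update P u0 p) =
      ∑ x : (U → T) × T, μ (x.1 u0) * g (update x.1 u0 x.2) := by
    rw [Fintype.sum_prod_type]
    exact sum_congr rfl fun P _ => mul_sum _ _ _
  have h2 : ∑ x : (U → T) × T, μ (x.1 u0) * g (update x.1 u0 x.2) =
      ∑ x : (U → T) × T, μ x.2 * g x.1 := by
    refine sum_bij' (fun x _ => (update x.1 u0 x.2, x.1 u0))
      (fun x _ => (update x.1 u0 x.2, x.1 u0)) ?_ ?_ ?_ ?_ ?_
    all_goals simp
  rw [h1, h2, Fintype.sum_prod_type]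
  refine sum_congr rfl fun P _ => ?_
  change g P = ∑ y, μ y * g P
  rw [← sum_mul, hμ, one_mul]

/-- The mixed weight. -/
def wt (a b : T → ℝ) (A : Finset U) (P : U → T) : ℝ :=
  ∏ u, (if u ∈ A then a (P u) else b (P u))

/-- The mixed weight without one factor. -/
def wr (a b : T → ℝ) (A : Finset U) (u0 : U) (P : U → T) : ℝ :=
  ∏ u ∈ univ.erase u0, (if u ∈ A then a (P u) else b (P u))

lemma wt_eq (a b : T → ℝ) (A : Finset U) (u0 : U) (h0 : u0 ∉ A) (P : U → T) :
    wt a b A P = b (P u0) * wr a b A u0 P := by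
  unfold wt wr
  rw [← mul_prod_erase univ _ (mem_univ u0), if_neg h0]

lemma wt_ins (a b : T → ℝ) (A : Finset U) (u0 : U) (P : U → T) :
    wt a b (insert u0 A) P = a (P u0) * wr a b A u0 P := by
  unfold wt wr
  rw [← mul_prod_erase univ _ (mem_univ u0), if_pos (mem_insert_self u0 A)]
  congr 1
  refine prod_congr rfl fun u hu => ?_
  have hne := ne_of_mem_erase hu
  by_cases h : u ∈ A
  · rw [if_pos h, if_pos (mem_insert_of_mem h)]
  · rw [if_neg h, if_neg (fun h' => (mem_insert.1 h').elim hne h)]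

lemma wr_update (a b : T → ℝ) (A : Finset U) (u0 : U) (P : U → T) (p : T) :
    wr a b A u0 (update P u0 p) = wr a b A u0 P := by
  unfold wr
  refine prod_congr rfl fun u hu => ?_
  rw [update_of_ne (ne_of_mem_erase hu)]

lemma wt_nonneg (a b : T → ℝ) (ha : ∀ p, 0 ≤ a p) (hb : ∀ p, 0 ≤ b p) (A : Finset U)
    (P : U → T) : 0 ≤ wt a b A P := by
  unfold wt
  refine prod_nonneg fun u _ => ?_
  split_ifs
  · exact ha _
  · exact hb _

/-- The two sums, after resampling. -/
lemma sum_wt (a b : T → ℝ) (hb1 : ∑ p, b p = 1) (A : Finset U) (u0 : U)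
    (h0 : u0 ∉ A) (F : (U → T) → ℝ) :
    ∑ P, wt a b A P * F P = ∑ P, wt a b A P * ∑ p, b p * F (update P u0 p) := by
  rw [resample u0 b hb1]
  refine sum_congr rfl fun P _ => ?_
  rw [wt_eq a b A u0 h0, mul_assoc, mul_sum, mul_sum (a := wr a b A u0 P)]
  rw [← mul_sum]
  congr 1
  refine sum_congr rfl fun p _ => ?_
  rw [wt_eq a b A u0 h0, wr_update, update_self]
  ring

lemma sum_ins (a b : T → ℝ) (hb1 : ∑ p, b p = 1) (A : Finset U) (u0 : U)
    (h0 : u0 ∉ A) (F : (U → T) → ℝ) :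
    ∑ P, wt a b (insert u0 A) P * F P = ∑ P, wt a b A P * ∑ p, a p * F (update P u0 p) := by
  rw [resample u0 b hb1]
  refine sum_congr rfl fun P _ => ?_
  rw [wt_eq a b A u0 h0, mul_assoc]
  congr 1
  rw [mul_sum]
  refine sum_congr rfl fun p _ => ?_
  rw [wt_ins, wr_update, update_self]
  ring

lemma sum_one (a b : T → ℝ) (ha1 : ∑ p, a p = 1) (hb1 : ∑ p, b p = 1) (A : Finset U) :
    ∑ P, wt a b A P = 1 := by
  induction A using Finset.induction_on with
  | empty =>
    have h : ∀ P : U → T, wt a b ∅ P = ∏ u, b (P u) := by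
      intro P; unfold wt; simp
    simp only [h]
    rw [← Fintype.prod_sum]
    simp [hb1]
  | insert u0 A h0 ih =>
    have h := sum_ins a b hb1 A u0 h0 (fun _ => 1)
    simp only [mul_one, ha1] at h
    rw [h, ih]

lemma step (a b : T → ℝ) (F : (U → T) → ℝ) (ε τ : ℝ) (ha : ∀ p, 0 ≤ a p) (hb : ∀ p, 0 ≤ b p)
    (ha1 : ∑ p, a p = 1) (hb1 : ∑ p, b p = 1)
    (H : ∀ P u, (1 - ε) * ∑ p, b p * F (update P u p) - τ ≤ ∑ p, a p * F (update P u p))
    (A : Finset U) (u0 : U) (h0 : u0 ∉ A) :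
    (1 - ε) * ∑ P, wt a b A P * F P - τ ≤ ∑ P, wt a b (insert u0 A) P * F P := by
  rw [sum_ins a b hb1 A u0 h0, sum_wt a b hb1 A u0 h0]
  have h1 : ∑ P, wt a b A P * ((1 - ε) * ∑ p, b p * F (update P u0 p) - τ) ≤
      ∑ P, wt a b A P * ∑ p, a p * F (update P u0 p) :=
    sum_le_sum fun P _ => mul_le_mul_of_nonneg_left (H P u0) (wt_nonneg a b ha hb A P)
  refine le_trans (le_of_eq ?_) h1
  have h2 : ∀ P : U → T, wt a b A P * ((1 - ε) * ∑ p, b p * F (update P u0 p) - τ) =
      (1 - ε) * (wt a b A P * ∑ p, b p * F (update P u0 p)) - wt a b A P * τ := by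
    intro P; ring
  simp only [h2]
  rw [sum_sub_distrib, ← mul_sum, ← sum_mul, sum_one a b ha1 hb1, one_mul]

end

/-- RCP: replacement of independent copies, relative version. -/
theorem rcp : T_RCP := by
  intro U T _ _ _ _ a b F ε τ ha hb ha1 hb1 hF hε hε1 hτ H
  have key : ∀ A : Finset U, (1 - (A.card : ℝ) * ε) * ∑ P, wt a b ∅ P * F P - (A.card : ℝ) * τ ≤
      ∑ P, wt a b A P * F P := by
    intro A
    induction A using Finset.induction_on with
    | empty => simp
    | insert u0 A h0 ih =>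
      have hs := step a b F ε τ ha hb ha1 hb1 H A u0 h0
      have hZ : 0 ≤ ∑ P, wt a b (∅ : Finset U) P * F P :=
        sum_nonneg fun P _ => mul_nonneg (wt_nonneg a b ha hb ∅ P) (hF P)
      rw [card_insert_of_notMem h0]
      push_cast
      set Z0 := ∑ P, wt a b (∅ : Finset U) P * F P
      set ZA := ∑ P, wt a b A P * F P
      set k : ℝ := (A.card : ℝ)
      have hk : 0 ≤ k := Nat.cast_nonneg _
      have e1 : (1 - ε) * ((1 - k * ε) * Z0 - k * τ) ≤ (1 - ε) * ZA :=
        mul_le_mul_of_nonneg_left ih (by linarith)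
      have e2 : 0 ≤ k * ε ^ 2 * Z0 := mul_nonneg (mul_nonneg hk (sq_nonneg ε)) hZ
      have e3 : 0 ≤ ε * (k * τ) := mul_nonneg hε (mul_nonneg hk hτ)
      nlinarith [e1, e2, e3, hs]
  have h := key univ
  have h0 : ∀ P : U → T, wt a b ∅ P = ∏ u, b (P u) := by
    intro P; unfold wt; simp
  have h1 : ∀ P : U → T, wt a b univ P = ∏ u, a (P u) := by
    intro P; unfold wt; simp
  simp only [h0, h1, card_univ] at h
  exact h

end Pool.Agent.H47.EH
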