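import Pool.Agent.H90.EH.Targets

/-!
# Real and rational convex combinations of integral points
-/

set_option autoImplicit false

namespace Pool.Agent.H47.EH

open Pool.Agent.H90.EH Finset

/-- The cast of integral points. -/
def cst {d : ℕ} (v : Fin d → ℤ) (i : Fin d) : ℝ := (v i : ℝ)

lemma cst_inj {d : ℕ} : Function.Injective (cst (d := d)) := by
  intro v w h
  funext i
  have := congrFun h i
  simpa [cst] using this

lemma pt_inj {d : ℕ} : Function.Injective (fun x : Fin d → ℤ => pt x 1) := by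
  intro v w h
  funext i
  have := congrFun h (Sum.inl i)
  simpa [pt] using this

lemma cone_sum {V ι : Type} [AddCommGroup V] [Module ℚ V] (A : Finset V) (s : Finset ι)
    (c : ι → ℚ) (v : ι → V) (hc : ∀ i ∈ s, 0 ≤ c i) (hv : ∀ i ∈ s, v i ∈ Cone A) :
    ∑ i ∈ s, c i • v i ∈ Cone A := by
  classical
  induction s using Finset.induction_on with
  | empty => simpa using cone_zero A
  | insert a s ha ih =>
    rw [sum_insert ha]
    exact cone_add (cone_smul (hv a (mem_insert_self a s)) (hc a (mem_insert_self a s)))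
      (ih (fun b hb => hc b (mem_insert_of_mem hb)) fun b hb => hv b (mem_insert_of_mem hb))

/-- A `ℚ`-linear retraction of `ℝ` onto `ℚ`. -/
lemma exists_retr : ∃ f : ℝ →ₗ[ℚ] ℚ, ∀ q : ℚ, f (q : ℝ) = q := by
  obtain ⟨g, hg⟩ := LinearMap.exists_leftInverse_of_injective
    (Algebra.linearMap ℚ ℝ) (LinearMap.ker_eq_bot.2 (by
      intro a b h
      simpa using h))
  refine ⟨g, fun q => ?_⟩
  have := LinearMap.congr_fun hg q
  simpa using this

lemma retr_mul (f : ℝ →ₗ[ℚ] ℚ) (q : ℚ) (r : ℝ) : f ((q : ℝ) * r) = q * f r := by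
  have : (q : ℝ) * r = q • r := by rw [Rat.smul_def]
  rw [this, map_smul, smul_eq_mul]

/-- from the rational cone to the real convex hull -/
lemma rq_mpr {d : ℕ} (S : Finset (Fin d → ℤ)) (x : Fin d → ℤ) (m : ℕ) (hm : 1 ≤ m)
    (h : pt x m ∈ Cone (gen S)) :
    (fun i => (x i : ℝ) / (m : ℝ)) ∈ convexHull ℝ (cst '' (S : Set (Fin d → ℤ))) := by
  classical
  obtain ⟨c, hc, hx⟩ := h
  unfold gen at hc hx
  have hx' : pt x m = ∑ s ∈ S, c (pt s 1) • pt s 1 := by
    rw [hx, Finset.sum_image (fun a _ b _ hab => pt_inj hab)]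
  have hmr : (0 : ℝ) < m := by exact_mod_cast hm
  have h1 : (m : ℚ) = ∑ s ∈ S, c (pt s 1) := by
    have := congrFun hx' (Sum.inr ())
    simpa [pt, Finset.sum_apply] using this
  have h2 : ∀ i, (x i : ℚ) = ∑ s ∈ S, c (pt s 1) * s i := by
    intro i
    have := congrFun hx' (Sum.inl i)
    simpa [pt, Finset.sum_apply] using this
  have hw0 : ∀ s ∈ S, (0 : ℝ) ≤ (c (pt s 1) : ℝ) / m := by
    intro s hs
    have : 0 ≤ c (pt s 1) := hc _ (Finset.mem_image_of_mem _ hs)
    have h3 : (0 : ℝ) ≤ (c (pt s 1) : ℝ) := by exact_mod_cast this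
    positivity
  have hw1 : ∑ s ∈ S, (c (pt s 1) : ℝ) / m = 1 := by
    rw [← Finset.sum_div, div_eq_one_iff_eq hmr.ne']
    have h3 : ((m : ℚ) : ℝ) = ((∑ s ∈ S, c (pt s 1) : ℚ) : ℝ) := by rw [← h1]
    push_cast at h3
    exact h3.symm
  have h4 := (convex_convexHull ℝ (cst '' (S : Set (Fin d → ℤ)))).sum_mem hw0 hw1
    (z := fun s => cst s) (fun s hs => subset_convexHull ℝ _ (Set.mem_image_of_mem _ hs))
  have h5 : ∑ s ∈ S, ((c (pt s 1) : ℝ) / m) • cst s = (fun i => (x i : ℝ) / (m : ℝ)) := by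
    funext i
    have h6 : ((x i : ℚ) : ℝ) = ((∑ s ∈ S, c (pt s 1) * s i : ℚ) : ℝ) := by rw [← h2]
    push_cast at h6
    rw [h6, Finset.sum_div, Finset.sum_apply]
    refine Finset.sum_congr rfl fun s _ => ?_
    simp only [Pi.smul_apply, smul_eq_mul, cst]
    ring
  rw [h5] at h4
  exact h4

/-- from the real convex hull to the rational cone -/
lemma rq_mp {d : ℕ} (S : Finset (Fin d → ℤ)) (x : Fin d → ℤ) (m : ℕ) (hm : 1 ≤ m)
    (h : (fun i => (x i : ℝ) / (m : ℝ)) ∈ convexHull ℝ (cst '' (S : Set (Fin d → ℤ)))) :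
    pt x m ∈ Cone (gen S) := by
  classical
  have hmr : (0 : ℝ) < m := by exact_mod_cast hm
  have hmq : (0 : ℚ) < m := by exact_mod_cast hm
  rw [convexHull_eq_union] at h
  simp only [Set.mem_iUnion] at h
  obtain ⟨t, ht, hind, hx⟩ := h
  rw [Finset.mem_convexHull'] at hx
  obtain ⟨w, hw0, hw1, hwx⟩ := hx
  obtain ⟨f, hf⟩ := exists_retr
  -- integral preimages
  have hz : ∀ y : t, ∃ s ∈ S, cst s = (y : Fin d → ℝ) := by
    intro y
    obtain ⟨s, hs, hsy⟩ := ht y.2
    exact ⟨s, hs, hsy⟩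
  choose z hzS hzc using hz
  have hw1' : ∑ y : t, w y = 1 := by
    rw [← hw1, ← Finset.sum_coe_sort t w]
  have hwx' : ∑ y : t, w y • (y : Fin d → ℝ) = fun i => (x i : ℝ) / (m : ℝ) := by
    rw [← hwx, ← Finset.sum_coe_sort t (fun y => w y • y)]
  -- the rational weights
  have hf1 : ∑ y : t, f (w y) = 1 := by
    rw [← map_sum, hw1']
    have := hf 1
    simpa using this
  have hfx : ∀ i, ∑ y : t, f (w y) * (z y i : ℚ) = (x i : ℚ) / m := by
    intro i
    have h1 : ∑ y : t, w y * (z y i : ℝ) = (x i : ℝ) / m := by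
      have h2 := congrFun hwx' i
      rw [Finset.sum_apply] at h2
      rw [← h2]
      refine Finset.sum_congr rfl fun y _ => ?_
      rw [Pi.smul_apply, smul_eq_mul, ← hzc y]
      rfl
    have h3 : f (∑ y : t, w y * (z y i : ℝ)) = f ((x i : ℝ) / m) := by rw [h1]
    rw [map_sum] at h3
    have h4 : ((x i : ℝ) / m) = (((x i : ℚ) / m : ℚ) : ℝ) := by push_cast; rfl
    rw [h4, hf] at h3
    rw [← h3]
    refine Finset.sum_congr rfl fun y _ => ?_
    have h5 : w y * (z y i : ℝ) = (((z y i : ℚ)) : ℝ) * w y := by push_cast; ring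
    rw [h5, retr_mul]
    ring
  have hkey : ∀ y : t, w y = ((f (w y) : ℚ) : ℝ) := by
    have h1 := (affineIndependent_iff.1 hind) Finset.univ
      (fun y => w y - ((f (w y) : ℚ) : ℝ)) (by
        rw [Finset.sum_sub_distrib, hw1']
        have : ((∑ y : t, f (w y) : ℚ) : ℝ) = 1 := by rw [hf1]; simp
        push_cast at this
        rw [this, sub_self]) (by
        simp only [sub_smul]
        rw [Finset.sum_sub_distrib, hwx']
        funext i
        rw [Pi.sub_apply, Finset.sum_apply]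
        have h2 : ((∑ y : t, f (w y) * (z y i : ℚ) : ℚ) : ℝ) = (x i : ℝ) / m := by
          rw [hfx]; push_cast; rfl
        push_cast at h2
        rw [← h2, Pi.zero_apply, sub_eq_zero]
        refine Finset.sum_congr rfl fun y _ => ?_
        rw [Pi.smul_apply, smul_eq_mul, ← hzc y]
        rfl)
    intro y
    have h2 := h1 y (Finset.mem_univ y)
    linarith
  have hpos : ∀ y : t, 0 ≤ f (w y) := by
    intro y
    have h1 : 0 ≤ w y := hw0 y y.2
    rw [hkey y] at h1
    exact_mod_cast h1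
  have hfin : pt x m = ∑ y : t, ((m : ℚ) * f (w y)) • pt (z y) 1 := by
    funext j
    rw [Finset.sum_apply]
    rcases j with i | u
    · simp only [pt, Sum.elim_inl, Pi.smul_apply, smul_eq_mul]
      have h1 := hfx i
      rw [eq_div_iff hmq.ne'] at h1
      rw [← h1, Finset.sum_mul]
      refine Finset.sum_congr rfl fun y _ => ?_
      ring
    · simp only [pt, Sum.elim_inr, Pi.smul_apply, smul_eq_mul]
      rw [← Finset.sum_mul, ← Finset.mul_sum, hf1]
      simp
  rw [hfin]
  refine cone_sum _ _ _ _ (fun y _ => mul_nonneg hmq.le (hpos y)) fun y _ => ?_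
  exact cone_mem (Finset.mem_image_of_mem _ (hzS y))

theorem pf_RQ : T_RQ := by
  intro d S x m hm
  exact ⟨fun h => rq_mp S x m hm h, fun h => rq_mpr S x m hm h⟩

end Pool.Agent.H47.EH
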