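import Pool.Agent.H90.EH.Targets

/-!
# Integral multiples of rational vectors
-/

set_option autoImplicit false

namespace Pool.Agent.H47.EH

open Pool.Agent.H90.EH Finset

theorem pf_SCL : T_SCL := by
  intro d y hy
  have hD : ∀ j, ∃ z : ℤ, ((∏ i, (y i).den : ℕ) : ℚ) * y j = z := by
    intro j
    obtain ⟨e, he⟩ : (y j).den ∣ ∏ i, (y i).den := Finset.dvd_prod_of_mem _ (Finset.mem_univ j)
    refine ⟨e * (y j).num, ?_⟩
    rw [he]
    push_cast
    have h1 : ((y j).den : ℚ) * y j = (y j).num := by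
      rw [mul_comm]
      exact Rat.mul_den_eq_num _
    linear_combination (e : ℚ) * h1
  choose z hz using hD
  have hpos : (0 : ℚ) < ((∏ i, (y i).den : ℕ) : ℚ) := by
    have : 0 < ∏ i, (y i).den := Finset.prod_pos fun i _ => (y i).den_pos
    exact_mod_cast this
  have hy' : 0 < y (Sum.inr ()) := hy
  have hz0 : (0 : ℚ) < z (Sum.inr ()) := by
    rw [← hz]
    exact mul_pos hpos hy'
  have hz1 : 0 < z (Sum.inr ()) := by exact_mod_cast hz0
  refine ⟨((∏ i, (y i).den : ℕ) : ℚ), fun i => z (Sum.inl i), (z (Sum.inr ())).toNat, hpos, ?_, ?_⟩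
  · omega
  · funext j
    rcases j with i | u
    · simp only [Pi.smul_apply, smul_eq_mul, pt, Sum.elim_inl]
      exact hz _
    · simp only [Pi.smul_apply, smul_eq_mul, pt, Sum.elim_inr]
      rw [hz]
      have : ((z (Sum.inr ())).toNat : ℤ) = z (Sum.inr ()) := Int.toNat_of_nonneg hz1.le
      exact_mod_cast this.symm

end Pool.Agent.H47.EH
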