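import Pool.Agent.H90.EH.Targets

/-!
# Full dimension
-/

set_option autoImplicit false

namespace Pool.Agent.H47.EH

open Pool.Agent.H90.EH Finset Filter Topology

theorem pf_TOP : T_TOP := by
  intro d S hint
  by_contra hne
  obtain ⟨f, hf0, hf⟩ := Submodule.exists_le_ker_of_lt_top _ (lt_top_iff_ne_top.2 hne)
  obtain ⟨x0, hx0⟩ := hint
  set a : Fin d → ℚ := fun i => f (Pi.single (Sum.inl i) 1) with ha
  set b : ℚ := f (Pi.single (Sum.inr ()) 1) with hb
  have hfe : ∀ v : Fin d ⊕ Unit → ℚ, f v = ∑ i, v (Sum.inl i) * a i + v (Sum.inr ()) * b := by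
    intro v
    have h1 : v = ∑ j, v j • (Pi.single j (1 : ℚ) : Fin d ⊕ Unit → ℚ) := by
      funext k
      simp [Finset.sum_apply, Pi.single_apply]
    conv_lhs => rw [h1]
    rw [map_sum, Fintype.sum_sum_type]
    simp [ha, hb]
  have hS : ∀ s ∈ S, ∑ i, (s i : ℚ) * a i + b = 0 := by
    intro s hs
    have h1 : pt s 1 ∈ Sp (gen S) := sub_Sp (Finset.mem_image_of_mem _ hs)
    have h2 := hf h1
    rw [LinearMap.mem_ker, hfe] at h2
    simpa [pt] using h2
  -- the hyperplane over the reals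
  set l : (Fin d → ℝ) →ₗ[ℝ] ℝ := ∑ i, (a i : ℝ) • LinearMap.proj i with hl
  have hle : ∀ y, l y = ∑ i, (a i : ℝ) * y i := by
    intro y
    simp [hl, LinearMap.sum_apply]
  have hsub : convexHull ℝ ((fun (v : Fin d → ℤ) (i : Fin d) => (v i : ℝ)) ''
      (S : Set (Fin d → ℤ))) ⊆ {y | l y = -(b : ℝ)} := by
    apply convexHull_min
    · rintro _ ⟨s, hs, rfl⟩
      have h1 := hS s hs
      have h2 : ((∑ i, (s i : ℚ) * a i + b : ℚ) : ℝ) = 0 := by rw [h1]; simp
      push_cast at h2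
      show l _ = _
      rw [hle]
      have h3 : ∑ i, (a i : ℝ) * (s i : ℝ) = ∑ i, (s i : ℝ) * (a i : ℝ) :=
        Finset.sum_congr rfl fun i _ => mul_comm _ _
      rw [h3]
      linarith
    · exact convex_hyperplane l.isLinear _
  have ha0 : ∀ i, a i = 0 := by
    intro i
    have hc : Continuous (fun t : ℝ => x0 + t • (Pi.single i (1 : ℝ) : Fin d → ℝ)) := by
      fun_prop
    have h1 : ∀ᶠ t : ℝ in 𝓝 0, x0 + t • (Pi.single i (1 : ℝ) : Fin d → ℝ) ∈
        interior (convexHull ℝ ((fun (v : Fin d → ℤ) (i : Fin d) => (v i : ℝ)) ''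
          (S : Set (Fin d → ℤ)))) := by
      apply hc.continuousAt.eventually
      apply isOpen_interior.mem_nhds
      simpa using hx0
    have h2 : ∀ᶠ t : ℝ in 𝓝[≠] 0, x0 + t • (Pi.single i (1 : ℝ) : Fin d → ℝ) ∈
        interior (convexHull ℝ ((fun (v : Fin d → ℤ) (i : Fin d) => (v i : ℝ)) ''
          (S : Set (Fin d → ℤ)))) := h1.filter_mono nhdsWithin_le_nhds
    obtain ⟨t, ht1, ht0⟩ := (h2.and self_mem_nhdsWithin).exists
    have e1 : l x0 = -(b : ℝ) := hsub (interior_subset hx0)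
    have e2 : l (x0 + t • (Pi.single i (1 : ℝ) : Fin d → ℝ)) = -(b : ℝ) :=
      hsub (interior_subset ht1)
    rw [map_add, map_smul, e1] at e2
    have e3 : l (Pi.single i (1 : ℝ) : Fin d → ℝ) = a i := by
      rw [hle]
      simp [Pi.single_apply]
    rw [e3, smul_eq_mul] at e2
    have e4 : t * (a i : ℝ) = 0 := by linarith
    have e5 : (a i : ℝ) = 0 := by
      rcases mul_eq_zero.1 e4 with h | h
      · exact absurd h ht0
      · exact h
    exact_mod_cast e5
  have hSne : S.Nonempty := by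
    rw [Finset.nonempty_iff_ne_empty]
    rintro rfl
    simp at hx0
  obtain ⟨s, hs⟩ := hSne
  have hb0 : b = 0 := by
    have := hS s hs
    simpa [ha0] using this
  apply hf0
  ext v
  simp [hfe, ha0, hb0]

end Pool.Agent.H47.EH
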